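import Mathlib

set_option autoImplicit false

namespace Pool.Agent.W596

open Geometry

/-- The image of a simplicial complex under a linear equivalence. -/
def mapSC {E F : Type*} [AddCommGroup E] [Module ℝ E] [AddCommGroup F] [Module ℝ F]
    (K : SimplicialComplex ℝ E) (e : F ≃ₗ[ℝ] E) : SimplicialComplex ℝ F where
  faces := {s | s.map e.toEquiv.toEmbedding ∈ K.faces}
  isRelLowerSet_faces := by
    intro s hs
    refine ⟨?_, ?_⟩
    · have := K.nonempty_of_mem_faces hs
      simpa using this
    · intro t hts ht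
      refine K.down_closed hs ?_ ?_
      · exact Finset.map_subset_map.2 hts
      · simpa using ht
  indep := by
    intro s hs
    have h := K.indep hs
    have h2 : AffineIndependent ℝ (fun x : s => e.toLinearMap.toAffineMap (x : F)) := by
      let j : s ↪ (s.map e.toEquiv.toEmbedding : Finset E) :=
        ⟨fun x => ⟨e (x : F), by
          rw [Finset.mem_map]; exact ⟨x, x.2, rfl⟩⟩, by
          intro x y hxy
          apply Subtype.ext
          exact e.injective (congrArg Subtype.val hxy)⟩
      exact h.comp_embedding j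
    exact AffineIndependent.of_comp e.toLinearMap.toAffineMap h2
  inter_subset_convexHull := by
    intro s t hs ht x hx
    have key : ∀ u : Set F, e '' (convexHull ℝ u) = convexHull ℝ (e '' u) := fun u =>
      e.toLinearMap.image_convexHull u
    have h := K.inter_subset_convexHull hs ht
    have hcoe : ∀ u : Finset F, ((u.map e.toEquiv.toEmbedding : Finset E) : Set E)
        = e '' (u : Set F) := by
      intro u; rw [Finset.coe_map]; rfl
    have h1 : e x ∈ convexHull ℝ ((s.map e.toEquiv.toEmbedding : Finset E) : Set E) := by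
      rw [hcoe, ← key]; exact ⟨x, hx.1, rfl⟩
    have h2 : e x ∈ convexHull ℝ ((t.map e.toEquiv.toEmbedding : Finset E) : Set E) := by
      rw [hcoe, ← key]; exact ⟨x, hx.2, rfl⟩
    have h3 := h ⟨h1, h2⟩
    rw [hcoe, hcoe, ← Set.image_inter e.injective, ← key] at h3
    obtain ⟨y, hy, hyx⟩ := h3
    rwa [e.injective hyx] at hy

theorem mapSC_mem {E F : Type*} [AddCommGroup E] [Module ℝ E] [AddCommGroup F] [Module ℝ F]
    (K : SimplicialComplex ℝ E) (e : F ≃ₗ[ℝ] E) (s : Finset F) :
    s ∈ (mapSC K e).faces ↔ s.map e.toEquiv.toEmbedding ∈ K.faces := Iff.rfl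

theorem mapSC_convexHull {E F : Type*} [AddCommGroup E] [Module ℝ E] [AddCommGroup F] [Module ℝ F]
    (e : F ≃ₗ[ℝ] E) (s : Finset F) (x : F) :
    x ∈ convexHull ℝ (s : Set F) ↔
      e x ∈ convexHull ℝ ((s.map e.toEquiv.toEmbedding : Finset E) : Set E) := by
  have key : e '' (convexHull ℝ (s : Set F)) = convexHull ℝ (e '' (s : Set F)) :=
      e.toLinearMap.image_convexHull _
  have hcoe : ((s.map e.toEquiv.toEmbedding : Finset E) : Set E) = e '' (s : Set F) := by
    rw [Finset.coe_map]; rfl
  rw [hcoe, ← key]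
  constructor
  · intro h; exact ⟨x, h, rfl⟩
  · rintro ⟨y, hy, hyx⟩
    rwa [e.injective hyx] at hy

theorem mapSC_finite {E F : Type*} [AddCommGroup E] [Module ℝ E] [AddCommGroup F] [Module ℝ F]
    (K : SimplicialComplex ℝ E) (e : F ≃ₗ[ℝ] E) (h : K.faces.Finite) :
    (mapSC K e).faces.Finite := by
  refine Set.Finite.preimage ?_ h
  exact (Finset.map_injective _).injOn

theorem mapSC_space {E F : Type*} [AddCommGroup E] [Module ℝ E] [AddCommGroup F] [Module ℝ F]
    (K : SimplicialComplex ℝ E) (e : F ≃ₗ[ℝ] E) (x : F) :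
    x ∈ (mapSC K e).space ↔ e x ∈ K.space := by
  rw [SimplicialComplex.mem_space_iff, SimplicialComplex.mem_space_iff]
  constructor
  · rintro ⟨s, hs, hx⟩
    exact ⟨_, hs, (mapSC_convexHull e s x).1 hx⟩
  · rintro ⟨s, hs, hx⟩
    have hs' : (s.map e.symm.toEquiv.toEmbedding).map e.toEquiv.toEmbedding = s := by
      rw [Finset.map_map]
      ext y
      simp
    refine ⟨s.map e.symm.toEquiv.toEmbedding, ?_, ?_⟩
    · rw [mapSC_mem, hs']; exact hs
    · rw [mapSC_convexHull e, hs']; exact hx

end Pool.Agent.W596
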