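import Pool.Agent.Results.MP_c8c16f_gt.TightApprox
import Pool.Agent.W596.SCMap

set_option autoImplicit false

namespace Pool.Agent.W596.VT

open Pool.Agent.Results.MP_c8c16f_gt.TightApprox

/-- the unit sphere of `ℝ³`, coordinates -/
abbrev Sp : Type := {x : Fin 3 → ℝ // ∑ j, x j ^ 2 = 1}

/-- the projective plane as in the frozen statement -/
abbrev PP : Type := Quot (fun x y : Sp => x.1 = y.1 ∨ x.1 = -y.1)

noncomputable def eL (n : ℕ) : E n ≃L[ℝ] (Fin n → ℝ) := EuclideanSpace.equiv (Fin n) ℝ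

@[simp] theorem eL_apply (n : ℕ) (x : E n) (i : Fin n) : eL n x i = x i := rfl
@[simp] theorem eL_symm_apply (n : ℕ) (x : Fin n → ℝ) (i : Fin n) : (eL n).symm x i = x i := rfl

theorem norm_symm_one (x : Sp) : ‖(eL 3).symm x.1‖ = 1 := by
  rw [EuclideanSpace.norm_eq, Real.sqrt_eq_one]
  have := x.2
  simpa using this

noncomputable def σ (x : Sp) : S2 := ⟨(eL 3).symm x.1, by
  rw [mem_sphere_zero_iff_norm]; exact norm_symm_one x⟩

noncomputable def τ (x : S2) : Sp := ⟨eL 3 x.1, by
  have := x.2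
  rw [mem_sphere_zero_iff_norm, EuclideanSpace.norm_eq, Real.sqrt_eq_one] at this
  simpa using this⟩

theorem σ_cont : Continuous σ :=
  ((eL 3).symm.continuous.comp continuous_subtype_val).subtype_mk _

theorem τ_cont : Continuous τ :=
  ((eL 3).continuous.comp continuous_subtype_val).subtype_mk _

theorem τσ (x : Sp) : τ (σ x) = x := by
  apply Subtype.ext; simp [τ, σ]

theorem στ (x : S2) : σ (τ x) = x := by
  apply Subtype.ext; simp [τ, σ]

noncomputable def Φf : PP → RP2 := Quot.lift (fun x => cls (σ x)) (by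
  rintro x y (h | h)
  · have : x = y := Subtype.ext h
    rw [this]
  · apply Quotient.sound
    right
    apply Subtype.ext
    show (eL 3).symm x.1 = -((eL 3).symm y.1)
    rw [h, map_neg])

noncomputable def Φi : RP2 → PP := Quotient.lift (fun x : S2 => (Quot.mk _ (τ x) : PP)) (by
  rintro x y (h | h)
  · rw [h]
  · apply Quot.sound
    right
    rw [h]
    show eL 3 (-(y : E 3)) = -(eL 3 y)
    rw [map_neg])

noncomputable def Φ : PP ≃ₜ RP2 where
  toFun := Φf
  invFun := Φi
  left_inv := by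
    intro x
    induction x using Quot.inductionOn with | _ x => ?_
    show (Quot.mk _ (τ (σ x)) : PP) = Quot.mk _ x
    rw [τσ]
  right_inv := by
    intro x
    induction x using Quotient.inductionOn with | _ x => ?_
    show cls (σ (τ x)) = cls x
    rw [στ]
  continuous_toFun := by
    refine continuous_coinduced_dom.2 ?_
    exact (continuous_quotient_mk'.comp σ_cont)
  continuous_invFun := by
    refine continuous_coinduced_dom.2 ?_
    exact (continuous_coinduced_rng.comp τ_cont)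

theorem Φ_mk (x : Sp) : Φ (Quot.mk _ x) = cls (σ x) := rfl

/-- the rows of `u` as vectors -/
noncomputable def row (u : Fin 4 → Fin 6 → ℝ) (i : Fin 4) : E 6 := (eL 6).symm (u i)

/-- the linear map with rows `u` -/
noncomputable def LL (u : Fin 4 → Fin 6 → ℝ) : E 6 →L[ℝ] E 4 :=
  LinearMap.toContinuousLinearMap
    { toFun := fun y => (eL 4).symm (fun i => ∑ k, u i k * y k)
      map_add' := by
        intro a b
        ext i
        simp [mul_add, Finset.sum_add_distrib]
      map_smul' := by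
        intro c a
        ext i
        simp only [eL_symm_apply, PiLp.smul_apply, smul_eq_mul, RingHom.id_apply, Finset.mul_sum]
        apply Finset.sum_congr rfl
        intro k _; ring }

theorem LL_apply (u : Fin 4 → Fin 6 → ℝ) (y : E 6) (i : Fin 4) :
    LL u y i = ∑ k, u i k * y k := rfl

/-- the span of the rows -/
def KK (u : Fin 4 → Fin 6 → ℝ) : Submodule ℝ (E 6) where
  carrier := {y | ∃ t : Fin 4 → ℝ, ∀ k, y k = ∑ i, t i * u i k}
  zero_mem' := ⟨0, by intro k; simp⟩
  add_mem' := by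
    rintro a b ⟨s, hs⟩ ⟨t, ht⟩
    refine ⟨s + t, ?_⟩
    intro k
    simp only [PiLp.add_apply, hs, ht, Pi.add_apply, add_mul, Finset.sum_add_distrib]
  smul_mem' := by
    rintro c a ⟨t, ht⟩
    refine ⟨fun i => c * t i, ?_⟩
    intro k
    simp only [PiLp.smul_apply, ht, smul_eq_mul, Finset.mul_sum, mul_assoc]

theorem LL_of_comb (u : Fin 4 → Fin 6 → ℝ)
    (hu : ∀ i j, ∑ k, u i k * u j k = if i = j then (1 : ℝ) else 0)
    (y : E 6) (t : Fin 4 → ℝ) (ht : ∀ k, y k = ∑ i, t i * u i k) (i : Fin 4) :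
    LL u y i = t i := by
  rw [LL_apply]
  have h1 : ∀ k, u i k * y k = ∑ j, t j * (u i k * u j k) := by
    intro k
    rw [ht k, Finset.mul_sum]
    apply Finset.sum_congr rfl
    intro j _; ring
  simp only [h1]
  rw [Finset.sum_comm]
  simp only [← Finset.mul_sum, hu]
  simp

theorem isOrth (u : Fin 4 → Fin 6 → ℝ)
    (hu : ∀ i j, ∑ k, u i k * u j k = if i = j then (1 : ℝ) else 0) :
    IsOrthogonalProjection (KK u) (LL u) := by
  refine ⟨?_, ?_, ?_⟩
  · intro x hx
    rw [Submodule.mem_orthogonal] at hx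
    ext i
    rw [LL_apply]
    have h := hx ((eL 6).symm (u i)) ⟨fun j => if j = i then 1 else 0, by
      intro k
      simp⟩
    rw [PiLp.inner_apply] at h
    simp only [eL_symm_apply, RCLike.inner_apply, conj_trivial] at h
    rw [PiLp.zero_apply, ← h]
    apply Finset.sum_congr rfl
    intro k _; ring
  · rintro x ⟨t, ht⟩
    rw [EuclideanSpace.norm_eq, EuclideanSpace.norm_eq]
    congr 1
    simp only [Real.norm_eq_abs, sq_abs]
    have h1 : ∀ i, LL u x i = t i := LL_of_comb u hu x t ht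
    simp only [h1]
    have h2 : ∀ k, x k ^ 2 = ∑ i, t i * (u i k * x k) := by
      intro k
      rw [sq]
      nth_rw 1 [ht k]
      rw [Finset.sum_mul]
      apply Finset.sum_congr rfl
      intro j _; ring
    simp only [h2]
    rw [Finset.sum_comm]
    simp only [← Finset.mul_sum]
    apply Finset.sum_congr rfl
    intro i _
    have h3 := h1 i
    rw [LL_apply] at h3
    rw [h3, sq]
  · intro z
    refine ⟨(eL 6).symm (fun k => ∑ i, z i * u i k), ?_⟩
    ext i
    exact LL_of_comb u hu _ (fun i => z i) (fun k => rfl) i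

theorem KK_sum (u : Fin 4 → Fin 6 → ℝ) (h0 : ∀ i, u i 0 + u i 1 + u i 2 = 0) (y : E 6)
    (hy : y ∈ KK u) : y 0 + y 1 + y 2 = 0 := by
  obtain ⟨t, ht⟩ := hy
  rw [ht 0, ht 1, ht 2, ← Finset.sum_add_distrib, ← Finset.sum_add_distrib]
  apply Finset.sum_eq_zero
  intro i _
  have := h0 i
  linear_combination t i * this

/-- the map of the frozen statement -/
noncomputable def FF (u : Fin 4 → Fin 6 → ℝ) : (Fin 3 → ℝ) → (Fin 4 → ℝ) :=
  (fun x i => ∑ k : Fin 6, u i k *
          (![x 0 ^ 2, x 1 ^ 2, x 2 ^ 2, Real.sqrt 2 * x 0 * x 1,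
             Real.sqrt 2 * x 0 * x 2, Real.sqrt 2 * x 1 * x 2] : Fin 6 → ℝ) k)

theorem FF_eq (u : Fin 4 → Fin 6 → ℝ) (x : Fin 3 → ℝ) :
    FF u x = eL 4 (LL u (veronese ((eL 3).symm x))) := by
  funext i
  rw [eL_apply, LL_apply]
  unfold FF
  apply Finset.sum_congr rfl
  intro k _
  congr 1
  fin_cases k <;> simp [veronese] <;> ring

theorem FF_eq' (u : Fin 4 → Fin 6 → ℝ) (y : E 3) :
    LL u (veronese y) = (eL 4).symm (FF u (eL 3 y)) := by
  rw [FF_eq]; simp

theorem veronese_neg (x : E 3) : veronese (-x) = veronese x := by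
  unfold veronese
  ext i; fin_cases i <;> simp

/-- the Veronese surface attached to `u` -/
noncomputable def fV (u : Fin 4 → Fin 6 → ℝ) : RP2 → E 4 :=
  Quotient.lift (fun x : S2 => LL u (veronese x)) (by
    rintro x y (h | h)
    · rw [h]
    · rw [h]
      show LL u (veronese (-(y : E 3))) = _
      rw [veronese_neg])

theorem fV_isV (u : Fin 4 → Fin 6 → ℝ)
    (hu : ∀ i j, ∑ k, u i k * u j k = if i = j then (1 : ℝ) else 0)
    (h0 : ∀ i, u i 0 + u i 1 + u i 2 = 0)
    (himm : ∀ x : Fin 3 → ℝ, ∑ j, x j ^ 2 = 1 → ∀ w : Fin 3 → ℝ,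
        ∑ j, x j * w j = 0 → fderiv ℝ (FF u) x w = 0 → w = 0) :
    IsVeroneseSurface (fV u) := by
  refine ⟨KK u, LL u, 0, KK_sum u h0, isOrth u hu, ?_, ?_⟩
  · intro x; rw [add_zero]; rfl
  · intro x w hx hxw hd
    have h1 : (fun y => LL u (veronese y)) = (eL 4).symm ∘ (FF u ∘ eL 3) := by
      funext y; exact FF_eq' u y
    rw [h1, ContinuousLinearEquiv.comp_fderiv, ContinuousLinearEquiv.comp_right_fderiv] at hd
    have h2 : fderiv ℝ (FF u) (eL 3 x) (eL 3 w) = 0 := by
      have := congrArg (eL 4) hd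
      simpa using this
    have h3 : ∑ j, (eL 3 x) j ^ 2 = 1 := by
      rw [EuclideanSpace.norm_eq, Real.sqrt_eq_one] at hx
      simpa using hx
    have h4 : ∑ j, (eL 3 x) j * (eL 3 w) j = 0 := by
      rw [PiLp.inner_apply] at hxw
      simp only [RCLike.inner_apply, conj_trivial] at hxw
      rw [← hxw]
      apply Finset.sum_congr rfl
      intro j _
      simp only [eL_apply]; ring
    have h5 := himm _ h3 _ h4 h2
    exact (eL 3).map_eq_zero_iff.1 h5

theorem main (u : Fin 4 → Fin 6 → ℝ)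
    (hu : ∀ i j, ∑ k, u i k * u j k = if i = j then (1 : ℝ) else 0)
    (h0 : ∀ i, u i 0 + u i 1 + u i 2 = 0)
    (himm : ∀ x : Fin 3 → ℝ, ∑ j, x j ^ 2 = 1 → ∀ w : Fin 3 → ℝ,
        ∑ j, x j * w j = 0 → fderiv ℝ (FF u) x w = 0 → w = 0) :
    ∃ g : ℕ → PP → (Fin 4 → ℝ),
      (∀ n, Continuous (g n) ∧
        (∃ (m : ℕ) (K : Geometry.SimplicialComplex ℝ (Fin m → ℝ))
            (h : K.space ≃ₜ PP),
          K.faces.Finite ∧
          ∀ s ∈ K.faces, ∃ A : (Fin m → ℝ) →ᵃ[ℝ] (Fin 4 → ℝ),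
            ∀ (y : Fin m → ℝ) (hy : y ∈ K.space),
              y ∈ convexHull ℝ (s : Set (Fin m → ℝ)) → g n (h ⟨y, hy⟩) = A y) ∧
        (∀ p, ∃ U ∈ nhds p, Set.InjOn (g n) U) ∧
        (∀ (a : Fin 4 → ℝ) (c : ℝ),
          IsPreconnected (g n ⁻¹' {z | ∑ i, a i * z i ≤ c}))) ∧
      TendstoUniformly
        (fun n (x : Sp) => g n (Quot.mk _ x))
        (fun x => FF u x.1) Filter.atTop := by
  obtain ⟨g, hg, hlim⟩ := result (fV u) (fV_isV u hu h0 himm)
  refine ⟨fun n p => eL 4 (g n (Φ p)), ?_, ?_⟩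
  · intro n
    obtain ⟨⟨hcont, htight⟩, ⟨⟨m, T, h, hfin, haff⟩, hloc⟩, hinj⟩ := hg n
    refine ⟨(eL 4).continuous.comp (hcont.comp Φ.continuous), ?_, ?_, ?_⟩
    · let e : (Fin m → ℝ) ≃L[ℝ] E m := (eL m).symm
      let K := mapSC T e.toLinearEquiv
      have hsp : ∀ x, x ∈ K.space ↔ e x ∈ T.space := fun x => mapSC_space T e.toLinearEquiv x
      let ψ : K.space ≃ₜ T.space := e.toHomeomorph.subtype hsp
      refine ⟨m, K, ψ.trans (h.trans Φ.symm), mapSC_finite T e.toLinearEquiv hfin, ?_⟩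
      intro s hs
      obtain ⟨A, hA⟩ := haff _ hs
      refine ⟨((eL 4).toLinearMap.toAffineMap.comp A).comp e.toLinearMap.toAffineMap, ?_⟩
      intro y hy hys
      have h1 := hA (ψ ⟨y, hy⟩) ((mapSC_convexHull e.toLinearEquiv s y).1 hys)
      show eL 4 (g n (Φ (Φ.symm (h (ψ ⟨y, hy⟩))))) = _
      rw [Homeomorph.apply_symm_apply, h1]
      rfl
    · intro p
      refine ⟨Set.univ, Filter.univ_mem, ?_⟩
      intro a _ b _ hab
      exact Φ.injective (hinj ((eL 4).injective hab))
    · intro a c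
      have h1 := htight ((eL 4).symm (-a)) (-c)
      have h2 : (fun p => eL 4 (g n (Φ p))) ⁻¹' {z | ∑ i, a i * z i ≤ c}
          = Φ ⁻¹' (g n ⁻¹' {y : E 4 | -c ≤ inner ℝ ((eL 4).symm (-a)) y}) := by
        ext p
        simp only [Set.mem_preimage, Set.mem_ofPred_eq, PiLp.inner_apply, eL_symm_apply,
          RCLike.inner_apply, conj_trivial, Pi.neg_apply, eL_apply]
        have : ∑ x, (g n (Φ p)) x * -a x = - ∑ i, a i * (g n (Φ p)) i := by
          rw [← Finset.sum_neg_distrib]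
          apply Finset.sum_congr rfl
          intro i _; ring
        rw [this]
        exact neg_le_neg_iff.symm
      rw [h2]
      exact (Φ.isPreconnected_preimage).2 h1
  · have h1 : TendstoUniformly (fun n (x : Sp) => g n (Φ (Quot.mk _ x)))
        (fun x => fV u (Φ (Quot.mk _ x))) Filter.atTop := hlim.comp _
    have h2 : UniformContinuous (eL 4) := (eL 4).toContinuousLinearMap.uniformContinuous
    have h3 := h2.comp_tendstoUniformly h1
    have h4 : (fun x : Sp => FF u x.1) = (eL 4) ∘ fun x : Sp => fV u (Φ (Quot.mk _ x)) := by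
      funext x
      rw [FF_eq]
      rfl
    rw [h4]
    exact h3

end Pool.Agent.W596.VT
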